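import Pool.Agent.V11252.SAW.PolyGen

/-!
# The asymptotics of the number of polygons in terms of a doubling ratio

`p_{2n}` is the number of self-avoiding polygons of perimeter `2n` on the square lattice, up to translation.
Here the question whether `p_{2n} ~ C μ^(2n) n^(-5/2)` is reduced to a statement without `μ`: it holds for
some `C > 0` if and only if `p_{4n} / p_{2n}^2 ~ B n^(5/2)` for some `B > 0` (then `B C = 2^(-5/2)`).  The
same for every other exponent, and on the logarithmic scale.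

Proof: `log (p_{2n} / μ^(2n)) = - ∑_j 2^(-j-1) log (p_{4m} / p_{2m}^2)`, `m = 2^j n`.
-/

set_option autoImplicit false

namespace Pool.Agent.Results.MP_376faf_co.GrowthFromDoubling

open Filter Topology
open Pool.Agent

/-- a closed nearest-neighbour loop on `ℤ²` with `m` steps, rooted at the origin and oriented,
that visits no vertex twice -/
def IsLoop (m : ℕ) (f : ZMod m → ℤ × ℤ) : Prop :=
  f 0 = 0 ∧ Function.Injective f ∧
    ∀ i : ZMod m, |(f (i + 1)).1 - (f i).1| + |(f (i + 1)).2 - (f i).2| = 1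

/-- `p_{2n}`: the number of self-avoiding polygons of perimeter `2 n` up to translation: the number
of rooted oriented loops divided by `4 n`, the number of choices of the root and the orientation -/
noncomputable def p (n : ℕ) : ℝ :=
  ({f : ZMod (2 * n) → ℤ × ℤ | IsLoop (2 * n) f}.ncard : ℝ) / (4 * n)

/-- `ω` is an `n`-step self-avoiding walk on `ℤ²` started at the origin. -/
def IsSAW (n : ℕ) (ω : Fin (n + 1) → ℤ × ℤ) : Prop :=
  ω 0 = (0, 0) ∧
  (∀ i : Fin n, |(ω i.succ).1 - (ω i.castSucc).1| + |(ω i.succ).2 - (ω i.castSucc).2| = 1) ∧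
  Function.Injective ω

/-- `c_n`: the number of `n`-step self-avoiding walks from the origin -/
noncomputable def c (n : ℕ) : ℕ := Nat.card {ω : Fin (n + 1) → ℤ × ℤ // IsSAW n ω}

theorem c_eq (n : ℕ) : c n = TH795.EP.c n := TH795.EP2.card_walks n

theorem p_eq (n : ℕ) : p n = H981.PP n := rfl

/-! ### the recursion -/

theorem tele (f : ℕ → ℝ) (n k : ℕ) : f n = f (2 ^ k * n) / 2 ^ k +
    ∑ j ∈ Finset.range k, (2 * f (2 ^ j * n) - f (2 * (2 ^ j * n))) / 2 ^ (j + 1) := by
  induction k with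
  | zero => simp
  | succ k ih =>
    rw [Finset.sum_range_succ, ih]
    have e : 2 * (2 ^ k * n) = 2 ^ (k + 1) * n := by rw [pow_succ]; ring
    rw [e]
    have h2 : (2 : ℝ) ^ k ≠ 0 := by positivity
    field_simp
    ring

theorem geo (x y : ℝ) (k : ℕ) : ∑ j ∈ Finset.range k, (x + j * y) / 2 ^ (j + 1) =
    x * (1 - 1 / 2 ^ k) + y * (1 - (k + 1) / 2 ^ k) := by
  induction k with
  | zero => simp
  | succ k ih =>
    rw [Finset.sum_range_succ, ih]
    have h2 : (2 : ℝ) ^ k ≠ 0 := by positivity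
    rw [pow_succ]
    push_cast
    field_simp
    ring

theorem geo_lim (x y : ℝ) : Tendsto (fun k : ℕ => x * (1 - 1 / 2 ^ k) + y * (1 - ((k : ℝ) + 1) / 2 ^ k))
    atTop (𝓝 (x + y)) := by
  have h1 : Tendsto (fun k : ℕ => 1 / (2 : ℝ) ^ k) atTop (𝓝 0) := by
    have := tendsto_pow_atTop_nhds_zero_of_lt_one (r := (1 / 2 : ℝ)) (by norm_num) (by norm_num)
    refine this.congr (fun k => ?_)
    rw [one_div_pow]
  have h2 : Tendsto (fun k : ℕ => (k : ℝ) / (2 : ℝ) ^ k) atTop (𝓝 0) := by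
    have := tendsto_self_mul_const_pow_of_lt_one (r := (1 / 2 : ℝ)) (by norm_num) (by norm_num)
    refine this.congr (fun k => ?_)
    rw [one_div_pow]
    ring
  have h3 : Tendsto (fun k : ℕ => ((k : ℝ) + 1) / (2 : ℝ) ^ k) atTop (𝓝 0) := by
    have := h2.add h1
    rw [add_zero] at this
    refine this.congr (fun k => ?_)
    rw [← add_div]
  have h4 : Tendsto (fun k : ℕ => x * (1 - 1 / 2 ^ k) + y * (1 - ((k : ℝ) + 1) / 2 ^ k))
      atTop (𝓝 (x * (1 - 0) + y * (1 - 0))) :=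
    ((tendsto_const_nhds.sub h1).const_mul x).add ((tendsto_const_nhds.sub h3).const_mul y)
  simpa using h4

theorem sub_lim {f : ℕ → ℝ} (hf : Tendsto (fun n : ℕ => f n / n) atTop (𝓝 0)) {n : ℕ} (hn : 1 ≤ n) :
    Tendsto (fun k : ℕ => f (2 ^ k * n) / 2 ^ k) atTop (𝓝 0) := by
  have hn0 : (n : ℝ) ≠ 0 := by exact_mod_cast (by omega : n ≠ 0)
  have h1 : Tendsto (fun k : ℕ => 2 ^ k * n) atTop atTop := by
    apply tendsto_atTop_mono (f := fun k => k) _ tendsto_id
    intro k
    have h2 : k < 2 ^ k := Nat.lt_two_pow_self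
    calc k ≤ 2 ^ k * 1 := by omega
      _ ≤ 2 ^ k * n := Nat.mul_le_mul_left _ hn
  have h2 := (hf.comp h1).mul_const (n : ℝ)
  rw [zero_mul] at h2
  refine h2.congr (fun k => ?_)
  simp only [Function.comp]
  push_cast
  field_simp

/-! ### the principle -/

theorem key {e w : ℕ → ℝ} (he : Tendsto (fun n : ℕ => e n / n) atTop (𝓝 0)) {N : ℕ} {ε : ℝ}
    (hε : 0 ≤ ε) (hw : ∀ n : ℕ, N ≤ n → ∀ j : ℕ, w (2 ^ j * n) ≤ w n + j * w n)
    (h : ∀ n : ℕ, N ≤ n → 2 * e n - e (2 * n) ≤ ε * w n) {n : ℕ} (hn : N ≤ n) (hn1 : 1 ≤ n) :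
    e n ≤ 2 * (ε * w n) := by
  have h1 : ∀ k : ℕ, e n ≤ e (2 ^ k * n) / 2 ^ k +
      ε * (w n * (1 - 1 / 2 ^ k) + w n * (1 - ((k : ℝ) + 1) / 2 ^ k)) := by
    intro k
    rw [tele e n k, ← geo, Finset.mul_sum]
    apply add_le_add le_rfl
    apply Finset.sum_le_sum
    intro j _
    have h2 : N ≤ 2 ^ j * n := by
      have : 1 ≤ 2 ^ j := Nat.one_le_two_pow
      nlinarith
    have h3 := h (2 ^ j * n) h2
    have h4 := mul_le_mul_of_nonneg_left (hw n hn j) hε
    rw [mul_div_assoc']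
    exact div_le_div_of_nonneg_right (h3.trans h4) (by positivity)
  have h2 := (sub_lim he hn1).add ((geo_lim (w n) (w n)).const_mul ε)
  rw [zero_add] at h2
  have h3 := ge_of_tendsto' h2 h1
  linarith

theorem o_iff {u w : ℕ → ℝ} (hw0 : ∀ᶠ n : ℕ in atTop, 0 < w n) :
    Tendsto (fun n : ℕ => u n / w n) atTop (𝓝 0) ↔
      ∀ ε : ℝ, 0 < ε → ∀ᶠ n : ℕ in atTop, |u n| ≤ ε * w n := by
  rw [Metric.tendsto_nhds]
  constructor
  · intro h ε hε
    filter_upwards [h ε hε, hw0] with n h1 h2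
    rw [Real.dist_eq, sub_zero, abs_div, abs_of_pos h2, div_lt_iff₀ h2] at h1
    exact h1.le
  · intro h ε hε
    filter_upwards [h (ε / 2) (by linarith), hw0] with n h1 h2
    rw [Real.dist_eq, sub_zero, abs_div, abs_of_pos h2, div_lt_iff₀ h2]
    nlinarith

theorem princ {e w : ℕ → ℝ} (he : Tendsto (fun n : ℕ => e n / n) atTop (𝓝 0))
    (hw0 : ∀ᶠ n : ℕ in atTop, 0 < w n)
    (hw : ∀ᶠ n : ℕ in atTop, ∀ j : ℕ, w (2 ^ j * n) ≤ w n + j * w n) :
    Tendsto (fun n : ℕ => (2 * e n - e (2 * n)) / w n) atTop (𝓝 0) ↔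
      Tendsto (fun n : ℕ => e n / w n) atTop (𝓝 0) := by
  rw [o_iff hw0, o_iff hw0]
  constructor
  · intro h ε hε
    obtain ⟨N, hN⟩ := eventually_atTop.1 ((h (ε / 2) (by linarith)).and hw)
    filter_upwards [eventually_ge_atTop N, eventually_ge_atTop 1] with n hn hn1
    have he' : Tendsto (fun n : ℕ => -e n / n) atTop (𝓝 0) := by
      have := he.neg
      rw [neg_zero] at this
      refine this.congr (fun n => ?_)
      ring
    have h1 := key he (N := N) (ε := ε / 2) (by linarith) (fun n hn => (hN n hn).2)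
      (fun n hn => (abs_le.1 (hN n hn).1).2) hn hn1
    have h2 := key (e := fun n => -e n) he' (N := N) (ε := ε / 2) (by linarith)
      (fun n hn => (hN n hn).2) (fun n hn => by
        have := (abs_le.1 (hN n hn).1).1
        linarith) hn hn1
    rw [abs_le]
    constructor <;> linarith
  · intro h ε hε
    obtain ⟨N, hN⟩ := eventually_atTop.1 ((h (ε / 4) (by linarith)).and hw)
    filter_upwards [eventually_ge_atTop N, hw0] with n hn hn0
    have h1 := (hN n hn).1
    have h2 := (hN (2 * n) (by omega)).1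
    have h3 := (hN n hn).2 1
    rw [pow_one, Nat.cast_one, one_mul] at h3
    rw [abs_le] at h1 h2 ⊢
    have h4 : ε / 4 * w (2 * n) ≤ ε / 4 * (w n + w n) :=
      mul_le_mul_of_nonneg_left h3 (by linarith)
    have h5 : 0 < ε * w n := mul_pos hε hn0
    constructor <;> linarith [h1.1, h1.2, h2.1, h2.2]

/-! ### the gauges -/

theorem log_big : Tendsto (fun n : ℕ => Real.log n) atTop atTop :=
  Real.tendsto_log_atTop.comp tendsto_natCast_atTop_atTop

theorem log_lim (k : ℕ) : Tendsto (fun n : ℕ => Real.log n ^ k / n) atTop (𝓝 0) := by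
  have h := (Real.tendsto_pow_log_div_mul_add_atTop 1 0 k one_ne_zero).comp
    tendsto_natCast_atTop_atTop
  refine h.congr (fun n => ?_)
  simp only [Function.comp, one_mul, add_zero]

theorem log_iff {u : ℕ → ℝ} (hu : ∀ᶠ n : ℕ in atTop, 0 < u n) {A : ℝ} (hA : 0 < A) :
    Tendsto (fun n : ℕ => Real.log (u n) - Real.log A) atTop (𝓝 0) ↔ Tendsto u atTop (𝓝 A) := by
  rw [tendsto_sub_nhds_zero_iff]
  constructor
  · intro h
    have h1 := (Real.continuous_exp.tendsto _).comp h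
    rw [Real.exp_log hA] at h1
    refine h1.congr' ?_
    filter_upwards [hu] with n h2
    simp only [Function.comp]
    rw [Real.exp_log h2]
  · intro h
    exact (Real.continuousAt_log hA.ne').tendsto.comp h

/-! ### polygons -/

theorem p_bd : ∃ K : ℝ, ∀ n : ℕ, 2 ≤ n → 0 < p n ∧
    |Real.log (p n / H981.mu ^ (2 * n))| ≤ K * Real.log n ^ 2 := by
  obtain ⟨K, _, h⟩ := Pool.Agent.TH508.LT.sq_PP2
  refine ⟨K, fun n hn => ?_⟩
  obtain ⟨h1, h2⟩ := h n hn
  rw [← p_eq] at h1 h2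
  have hm := pow_pos H981.mu_pos (2 * n)
  have hp : 0 < p n := lt_of_lt_of_le (by positivity) h1
  refine ⟨hp, ?_⟩
  rw [Real.log_div hp.ne' hm.ne', abs_le]
  have h3 := Real.log_le_log (by positivity) h1
  have h4 := Real.log_le_log hp h2
  rw [Real.log_mul hm.ne' (Real.exp_pos _).ne', Real.log_exp] at h3 h4
  constructor <;> linarith

theorem f_lim : Tendsto (fun n : ℕ => Real.log (p n / H981.mu ^ (2 * n)) / n) atTop (𝓝 0) := by
  obtain ⟨K, hK⟩ := p_bd
  have h1 := (log_lim 2).const_mul K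
  rw [mul_zero] at h1
  apply squeeze_zero_norm' _ h1
  filter_upwards [eventually_ge_atTop 2] with n hn
  have hn0 : (0 : ℝ) < n := by exact_mod_cast (by omega : 0 < n)
  rw [Real.norm_eq_abs, abs_div, abs_of_pos hn0, mul_div_assoc']
  exact div_le_div_of_nonneg_right (hK n hn).2 hn0.le

theorem dbl {n : ℕ} (hn : 2 ≤ n) : 0 < p n ∧ 0 < p (2 * n) ∧
    Real.log (p (2 * n) / p n ^ 2) =
      Real.log (p (2 * n) / H981.mu ^ (2 * (2 * n))) - 2 * Real.log (p n / H981.mu ^ (2 * n)) := by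
  obtain ⟨K, hK⟩ := p_bd
  have h1 := (hK n hn).1
  have h2 := (hK (2 * n) (by omega)).1
  have h3 := pow_pos H981.mu_pos (2 * n)
  have h4 := pow_pos H981.mu_pos (2 * (2 * n))
  refine ⟨h1, h2, ?_⟩
  rw [Real.log_div h2.ne' (by positivity), Real.log_div h2.ne' h4.ne', Real.log_div h1.ne' h3.ne',
    Real.log_pow, Real.log_pow, Real.log_pow]
  push_cast
  ring

theorem ident {n : ℕ} (hn : 2 ≤ n) :
    Tendsto (fun k : ℕ => ∑ j ∈ Finset.range k,
      Real.log (p (2 * (2 ^ j * n)) / p (2 ^ j * n) ^ 2) / 2 ^ (j + 1)) atTop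
      (𝓝 (-Real.log (p n / H981.mu ^ (2 * n)))) := by
  have h1 := (sub_lim f_lim (by omega : 1 ≤ n)).sub_const (Real.log (p n / H981.mu ^ (2 * n)))
  rw [zero_sub] at h1
  refine h1.congr (fun k => ?_)
  have h2 := tele (fun n => Real.log (p n / H981.mu ^ (2 * n))) n k
  have h3 : ∀ j ∈ Finset.range k, Real.log (p (2 * (2 ^ j * n)) / p (2 ^ j * n) ^ 2) / 2 ^ (j + 1) =
      -((2 * Real.log (p (2 ^ j * n) / H981.mu ^ (2 * (2 ^ j * n))) -
        Real.log (p (2 * (2 ^ j * n)) / H981.mu ^ (2 * (2 * (2 ^ j * n))))) / 2 ^ (j + 1)) := by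
    intro j _
    have h4 : 2 ≤ 2 ^ j * n := by
      have : 1 ≤ 2 ^ j := Nat.one_le_two_pow
      nlinarith
    rw [(dbl h4).2.2]
    ring
  rw [Finset.sum_congr rfl h3, Finset.sum_neg_distrib]
  linarith

theorem exact_asym {A : ℝ} (hA : 0 < A) (t : ℝ) :
    Tendsto (fun n : ℕ => p n / H981.mu ^ (2 * n) * (n : ℝ) ^ t) atTop (𝓝 A) ↔
      Tendsto (fun n : ℕ => p (2 * n) / p n ^ 2 * (n : ℝ) ^ (-t)) atTop (𝓝 (2 ^ (-t) / A)) := by
  have he : Tendsto (fun n : ℕ => (Real.log (p n / H981.mu ^ (2 * n)) + (t * Real.log n -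
      Real.log A)) / n) atTop (𝓝 0) := by
    have h1 : Tendsto (fun n : ℕ => Real.log A / (n : ℝ)) atTop (𝓝 0) :=
      tendsto_const_nhds.div_atTop tendsto_natCast_atTop_atTop
    have h2 := log_lim 1
    simp only [pow_one] at h2
    have := f_lim.add ((h2.const_mul t).sub h1)
    rw [mul_zero, sub_zero, add_zero] at this
    refine this.congr (fun n => ?_)
    ring
  have hp := princ (w := fun _ => 1) he (Eventually.of_forall (fun _ => one_pos))
    (Eventually.of_forall (fun n j => by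
      have : (0 : ℝ) ≤ j := Nat.cast_nonneg j
      linarith))
  have hu1 : ∀ᶠ n : ℕ in atTop, 0 < p n / H981.mu ^ (2 * n) * (n : ℝ) ^ t := by
    filter_upwards [eventually_ge_atTop 2] with n hn
    have hn0 : (0 : ℝ) < n := by exact_mod_cast (by omega : 0 < n)
    have h1 := (dbl hn).1
    have h2 := pow_pos H981.mu_pos (2 * n)
    positivity
  have hu2 : ∀ᶠ n : ℕ in atTop, 0 < p (2 * n) / p n ^ 2 * (n : ℝ) ^ (-t) := by
    filter_upwards [eventually_ge_atTop 2] with n hn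
    have hn0 : (0 : ℝ) < n := by exact_mod_cast (by omega : 0 < n)
    have h1 := (dbl hn).1
    have h2 := (dbl hn).2.1
    positivity
  rw [← log_iff hu1 hA, ← log_iff hu2 (A := 2 ^ (-t) / A) (by positivity)]
  have a1 : Tendsto (fun n : ℕ => Real.log (p n / H981.mu ^ (2 * n) * (n : ℝ) ^ t) -
      Real.log A) atTop (𝓝 0) ↔ Tendsto (fun n : ℕ => (Real.log (p n / H981.mu ^ (2 * n)) +
      (t * Real.log n - Real.log A)) / 1) atTop (𝓝 0) := by
    apply tendsto_congr'
    filter_upwards [eventually_ge_atTop 2] with n hn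
    have hn0 : (0 : ℝ) < n := by exact_mod_cast (by omega : 0 < n)
    have h1 := (dbl hn).1
    have h2 := pow_pos H981.mu_pos (2 * n)
    rw [Real.log_mul (by positivity) (by positivity), Real.log_rpow hn0]
    ring
  rw [a1, ← hp]
  have e1 : ∀ᶠ n : ℕ in atTop, (2 * (Real.log (p n / H981.mu ^ (2 * n)) + (t * Real.log n -
        Real.log A)) - (Real.log (p (2 * n) / H981.mu ^ (2 * (2 * n))) +
        (t * Real.log ((2 * n : ℕ) : ℝ) - Real.log A))) / 1 =
      -(Real.log (p (2 * n) / p n ^ 2 * (n : ℝ) ^ (-t)) - Real.log (2 ^ (-t) / A)) := by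
    filter_upwards [eventually_ge_atTop 2] with n hn
    have hn0 : (0 : ℝ) < n := by exact_mod_cast (by omega : 0 < n)
    have h1 := (dbl hn).1
    have h2 := (dbl hn).2.1
    rw [Real.log_div (by positivity) hA.ne', Real.log_mul (by positivity) (by positivity),
      Real.log_rpow hn0, Real.log_rpow (by norm_num), (dbl hn).2.2]
    have e2 : Real.log ((2 * n : ℕ) : ℝ) = Real.log 2 + Real.log n := by
      push_cast
      rw [Real.log_mul (by norm_num) hn0.ne']
    rw [e2]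
    ring
  rw [tendsto_congr' e1]
  constructor
  · intro k
    have := k.neg
    rw [neg_zero] at this
    refine this.congr (fun n => ?_)
    ring
  · intro k
    have := k.neg
    rwa [neg_zero] at this

theorem scale (t : ℝ) :
    Tendsto (fun n : ℕ => Real.log (p n / H981.mu ^ (2 * n)) / Real.log n) atTop (𝓝 (-t)) ↔
      Tendsto (fun n : ℕ => Real.log (p (2 * n) / p n ^ 2) / Real.log n) atTop (𝓝 t) := by
  have hw0 : ∀ᶠ n : ℕ in atTop, 0 < Real.log n := log_big.eventually_gt_atTop 0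
  have hw : ∀ᶠ n : ℕ in atTop, ∀ j : ℕ, Real.log ((2 ^ j * n : ℕ) : ℝ) ≤
      Real.log n + j * Real.log n := by
    filter_upwards [eventually_ge_atTop 2] with n hn j
    have hn0 : (0 : ℝ) < n := by exact_mod_cast (by omega : 0 < n)
    have h3 : Real.log 2 ≤ Real.log n := Real.log_le_log (by norm_num) (by exact_mod_cast hn)
    push_cast
    rw [Real.log_mul (by positivity) hn0.ne', Real.log_pow]
    have := mul_le_mul_of_nonneg_left h3 (Nat.cast_nonneg j : (0 : ℝ) ≤ j)
    linarith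
  have he : Tendsto (fun n : ℕ => (Real.log (p n / H981.mu ^ (2 * n)) + t * Real.log n) / n) atTop
      (𝓝 0) := by
    have h2 := log_lim 1
    simp only [pow_one] at h2
    have := f_lim.add (h2.const_mul t)
    rw [mul_zero, add_zero] at this
    refine this.congr (fun n => ?_)
    ring
  have hp := princ he hw0 hw
  have hd : Tendsto (fun n : ℕ => t * (Real.log 2 / Real.log n)) atTop (𝓝 0) := by
    have := (tendsto_const_nhds (x := Real.log 2)).div_atTop log_big |>.const_mul t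
    rwa [mul_zero] at this
  have a1 : Tendsto (fun n : ℕ => (Real.log (p n / H981.mu ^ (2 * n)) + t * Real.log n) /
      Real.log n) atTop (𝓝 0) ↔
      Tendsto (fun n : ℕ => Real.log (p n / H981.mu ^ (2 * n)) / Real.log n) atTop (𝓝 (-t)) := by
    rw [← tendsto_sub_nhds_zero_iff (u := fun n : ℕ => Real.log (p n / H981.mu ^ (2 * n)) / Real.log n)]
    apply tendsto_congr'
    filter_upwards [hw0] with n h1
    field_simp
    ring
  have key2 : ∀ᶠ n : ℕ in atTop, (2 * (Real.log (p n / H981.mu ^ (2 * n)) + t * Real.log n) -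
      (Real.log (p (2 * n) / H981.mu ^ (2 * (2 * n))) + t * Real.log ((2 * n : ℕ) : ℝ))) /
      Real.log n = t - Real.log (p (2 * n) / p n ^ 2) / Real.log n -
        t * (Real.log 2 / Real.log n) := by
    filter_upwards [hw0, eventually_ge_atTop 2] with n h1 hn
    have hn0 : (0 : ℝ) < n := by exact_mod_cast (by omega : 0 < n)
    have e2 : Real.log ((2 * n : ℕ) : ℝ) = Real.log 2 + Real.log n := by
      push_cast
      rw [Real.log_mul (by norm_num) hn0.ne']
    rw [e2, (dbl hn).2.2]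
    field_simp
    ring
  have a2 : Tendsto (fun n : ℕ => (2 * (Real.log (p n / H981.mu ^ (2 * n)) + t * Real.log n) -
      (Real.log (p (2 * n) / H981.mu ^ (2 * (2 * n))) + t * Real.log ((2 * n : ℕ) : ℝ))) /
      Real.log n) atTop (𝓝 0) ↔
      Tendsto (fun n : ℕ => Real.log (p (2 * n) / p n ^ 2) / Real.log n) atTop (𝓝 t) := by
    rw [tendsto_congr' key2]
    constructor
    · intro g
      have g1 := ((g.add hd).const_sub t)
      rw [add_zero, sub_zero] at g1
      refine g1.congr (fun n => ?_)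
      ring
    · intro g
      have g1 := (g.const_sub t).sub hd
      rw [sub_self, sub_zero] at g1
      exact g1
  rw [← a1, ← a2]
  exact hp.symm

/-- **Theorem.** On `ℤ²`, with `μ = lim c_n^(1/n)` and `p_{2n}` the number of polygons of perimeter `2n`
up to translation (`p n` is `p_{2n}`, `p (2 * n)` is `p_{4n}`):
(1) `∑_j 2^(-j-1) log (p_{4m} / p_{2m}^2) = - log (p_{2n} / μ^(2n))`, `m = 2^j n`, for `n ≥ 2`;
(2) for all real `t` and `A > 0`: `p_{2n} μ^(-2n) n^t → A` if and only if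
`(p_{4n} / p_{2n}^2) n^(-t) → 2^(-t) / A`;
(3) `p_{2n} ~ C μ^(2n) n^(-5/2)` for some `C > 0` if and only if `p_{4n} / p_{2n}^2 ~ B n^(5/2)` for some
`B > 0`;
(4) for every real `t`: `log (p_{2n} / μ^(2n)) / log n → - t` if and only if
`log (p_{4n} / p_{2n}^2) / log n → t`. -/
theorem result : ∃ μ : ℝ, 0 < μ ∧
    Tendsto (fun n : ℕ => (c n : ℝ) ^ (1 / (n : ℝ))) atTop (𝓝 μ) ∧
    (∀ n : ℕ, 2 ≤ n → Tendsto (fun k : ℕ => ∑ j ∈ Finset.range k,
      Real.log (p (2 * (2 ^ j * n)) / p (2 ^ j * n) ^ 2) / 2 ^ (j + 1)) atTop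
      (𝓝 (-Real.log (p n / μ ^ (2 * n))))) ∧
    (∀ t A : ℝ, 0 < A →
      (Tendsto (fun n : ℕ => p n / μ ^ (2 * n) * (n : ℝ) ^ t) atTop (𝓝 A) ↔
        Tendsto (fun n : ℕ => p (2 * n) / p n ^ 2 * (n : ℝ) ^ (-t)) atTop (𝓝 (2 ^ (-t) / A)))) ∧
    ((∃ C : ℝ, 0 < C ∧
        Tendsto (fun n : ℕ => p n / μ ^ (2 * n) * (n : ℝ) ^ (5 / 2 : ℝ)) atTop (𝓝 C)) ↔
      (∃ B : ℝ, 0 < B ∧
        Tendsto (fun n : ℕ => p (2 * n) / p n ^ 2 * (n : ℝ) ^ (-(5 / 2 : ℝ))) atTop (𝓝 B))) ∧
    (∀ t : ℝ, Tendsto (fun n : ℕ => Real.log (p n / μ ^ (2 * n)) / Real.log n) atTop (𝓝 (-t)) ↔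
      Tendsto (fun n : ℕ => Real.log (p (2 * n) / p n ^ 2) / Real.log n) atTop (𝓝 t)) := by
  refine ⟨H981.mu, H981.mu_pos, ?_, fun n hn => ident hn, fun t A hA => exact_asym hA t,
    ⟨?_, ?_⟩, fun t => scale t⟩
  · have h := H981.tendsto_root
    refine h.congr (fun n => ?_)
    rw [c_eq, TH795.EP.c_eq]
  · rintro ⟨C, hC, h⟩
    exact ⟨2 ^ (-(5 / 2 : ℝ)) / C, by positivity, (exact_asym hC _).1 h⟩
  · rintro ⟨B, hB, h⟩
    refine ⟨2 ^ (-(5 / 2 : ℝ)) / B, by positivity, (exact_asym (by positivity) _).2 ?_⟩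
    have e : (2 : ℝ) ^ (-(5 / 2 : ℝ)) / (2 ^ (-(5 / 2 : ℝ)) / B) = B := by
      have : (0 : ℝ) < 2 ^ (-(5 / 2 : ℝ)) := by positivity
      field_simp
    rw [e]
    exact h

end Pool.Agent.Results.MP_376faf_co.GrowthFromDoubling
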