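import Pool.Agent.V11237.SXT.Poly4

set_option autoImplicit false

/-!
# Self-avoiding polygons on `ℤ²` follow every closed corridor

Let `U₁`, `U₂` be disjoint connected open subsets of the plane and let `b ≠ 0` be a point such that near
`0` and near `b` the set `U₁` contains the upper and `U₂` the lower half of a square. A self-avoiding polygon
through `0`, rescaled by `L`, follows the closed corridor if it runs through `U₁` from `0` to `b` and
returns through `U₂` (up to squares of any prescribed size around `0` and `b`). So the polygon can be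
forced into a thin neighbourhood of any closed curve, e.g. of a spiral.

The polygons which follow the corridor have at least the critical mass `exp (- K (log L) ^ 2)`, for all
scales `L`, and for every scale `L` there is a perimeter `m` between `L / K` and `K L ^ 2` for which the uniform
polygon of perimeter `m` follows the corridor with probability at least `exp (- K (log m) ^ 2)`.
-/

namespace Pool.Agent.Results.MP_376faf_co.PolygonsOfEveryShape

open Filter

/-- a closed nearest-neighbour loop on `ℤ²` with `m` steps, rooted at the origin and oriented,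
that visits no vertex twice -/
def IsLoop (m : ℕ) (f : ZMod m → ℤ × ℤ) : Prop :=
  f 0 = 0 ∧ Function.Injective f ∧
    ∀ i : ZMod m, |(f (i + 1)).1 - (f i).1| + |(f (i + 1)).2 - (f i).2| = 1

/-- `v / L` -/
noncomputable def pt (L : ℝ) (v : ℤ × ℤ) : ℝ × ℝ := ((v.1 : ℝ) / L, (v.2 : ℝ) / L)

/-- A closed corridor: disjoint connected open sets `U₁`, `U₂`, where near `z = 0` and near `z = b` the set
`U₁` contains the upper and `U₂` the lower half of the square of side `2 ρ` around `z`. -/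
structure Corridor (U₁ U₂ : Set (ℝ × ℝ)) (b : ℝ × ℝ) (ρ : ℝ) : Prop where
  open₁ : IsOpen U₁
  conn₁ : IsConnected U₁
  open₂ : IsOpen U₂
  conn₂ : IsConnected U₂
  disj : Disjoint U₁ U₂
  pos : 0 < ρ
  upper : ∀ z : ℝ × ℝ, z = 0 ∨ z = b → ∀ x : ℝ × ℝ, |x.1 - z.1| < ρ → z.2 < x.2 → x.2 < z.2 + ρ → x ∈ U₁
  lower : ∀ z : ℝ × ℝ, z = 0 ∨ z = b → ∀ x : ℝ × ℝ, |x.1 - z.1| < ρ → z.2 - ρ < x.2 → x.2 < z.2 → x ∈ U₂

/-- The polygon `f`, rescaled by `L`, follows the corridor: it consists of a path from `0` to a point at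
distance at most `1 / L` of `b` which stays in the union of `U₁` and of the squares of side `2 ρ` around `0`
and `b` (the balls of radius `ρ` of the maximum norm), and of a path back to `0` which stays in the
union of `U₂` and of these squares. -/
def Follows (U₁ U₂ : Set (ℝ × ℝ)) (b : ℝ × ℝ) (ρ L : ℝ) (m : ℕ) (f : ZMod m → ℤ × ℤ) : Prop :=
  ∃ i : ℕ, i < m ∧ dist (pt L (f i)) b ≤ 1 / L ∧
    (∀ k : ℕ, k < i → segment ℝ (pt L (f k)) (pt L (f (k + 1 : ℕ))) ⊆
      U₁ ∪ Metric.ball 0 ρ ∪ Metric.ball b ρ) ∧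
    ∀ k : ℕ, i ≤ k → k < m → segment ℝ (pt L (f k)) (pt L (f (k + 1 : ℕ))) ⊆
      U₂ ∪ Metric.ball 0 ρ ∪ Metric.ball b ρ

/-- the number of the polygons with `m` steps, rooted at the origin and oriented, with the property `P` -/
noncomputable def number (m : ℕ) (P : (ZMod m → ℤ × ℤ) → Prop) : ℕ :=
  {f : ZMod m → ℤ × ℤ | IsLoop m f ∧ P f}.ncard

/-- the probability of `P` for the uniform polygon with `m` steps -/
noncomputable def prob (m : ℕ) (P : (ZMod m → ℤ × ℤ) → Prop) : ℝ :=
  (number m P : ℝ) / (number m fun _ => True : ℝ)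

/-- the `n`-step self-avoiding walks from the origin -/
def walks (n : ℕ) : Set (Fin (n + 1) → ℤ × ℤ) :=
  {f | f 0 = 0 ∧ Function.Injective f ∧
    ∀ i : Fin n, |(f i.castSucc).1 - (f i.succ).1| + |(f i.castSucc).2 - (f i.succ).2| = 1}

theorem closed {U₁ U₂ : Set (ℝ × ℝ)} {b : ℝ × ℝ} {ρ : ℝ} (h : Corridor U₁ U₂ b ρ) :
    Pool.Agent.V11237.SXT.Closed U₁ U₂ b ρ where
  o1 := h.open₁
  c1 := h.conn₁.isPreconnected
  o2 := h.open₂
  c2 := h.conn₂.isPreconnected
  dis := h.disj
  pos := h.pos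
  a1 x k1 k2 k3 := h.upper 0 (Or.inl rfl) x (by simpa using k1) (by simpa using k2) (by simpa using k3)
  a2 x k1 k2 k3 := h.lower 0 (Or.inl rfl) x (by simpa using k1) (by simpa using k2) (by simpa using k3)
  b1 x k1 k2 k3 := h.upper b (Or.inr rfl) x k1 k2 k3
  b2 x k1 k2 k3 := h.lower b (Or.inr rfl) x k1 k2 k3

/-- **Self-avoiding polygons follow every closed corridor.** -/
theorem result (U₁ U₂ : Set (ℝ × ℝ)) (b : ℝ × ℝ) (ρ : ℝ) (hb : b ≠ 0) (hU : Corridor U₁ U₂ b ρ)
    (μ : ℝ) (hμ : Tendsto (fun n : ℕ => ((walks n).ncard : ℝ) ^ (1 / (n : ℝ))) atTop (nhds μ)) :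
    ∃ K : ℝ, ∀ L : ℝ, K ≤ L →
      Real.exp (-(K * Real.log L ^ 2)) ≤
        ∑ m ∈ Finset.range (⌊K * L ^ 2⌋₊ + 1), (number m (Follows U₁ U₂ b ρ L m) : ℝ) / μ ^ m ∧
      ∃ m : ℕ, L / K ≤ m ∧ (m : ℝ) ≤ K * L ^ 2 ∧
        Real.exp (-(K * Real.log m ^ 2)) ≤ prob m (Follows U₁ U₂ b ρ L m) := by
  have hmu : μ = Pool.Agent.V11237.SXT.mu := by
    refine tendsto_nhds_unique hμ ?_
    have h1 := H981.tendsto_root
    refine h1.congr fun n => ?_
    rw [← Pool.Agent.V11237.SXT.c_eq, ← Pool.Agent.H122R3.SX.ncard_walks]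
    rfl
  have hmu0 : 0 < μ := by
    rw [hmu]
    exact lt_of_lt_of_le one_pos H981.one_le_mu
  obtain ⟨K1, hK1, h1⟩ := Pool.Agent.V11237.SXT.mass (closed hU)
  obtain ⟨K2, hK2, h2⟩ := Pool.Agent.V11237.SXT.polygon_prob (closed hU) hb
  refine ⟨max K1 K2, ?_⟩
  intro L hL
  have hL1 : K1 ≤ L := (le_max_left _ _).trans hL
  have hL2 : K2 ≤ L := (le_max_right _ _).trans hL
  have hL0 : 0 ≤ L := by linarith
  have hK0 : 0 < max K1 K2 := lt_of_lt_of_le (by linarith) (le_max_left K1 K2)
  constructor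
  · obtain ⟨S, hS, -, hs⟩ := h1 L hL1
    have e1 : Real.exp (-(max K1 K2 * Real.log L ^ 2)) ≤ Real.exp (-(K1 * Real.log L ^ 2)) := by
      apply Real.exp_le_exp.2
      have : 0 ≤ Real.log L ^ 2 := by positivity
      nlinarith [le_max_left K1 K2]
    refine e1.trans (hs.trans ?_)
    have e2 : ∀ m : ℕ, ({f : ZMod m → ℤ × ℤ | Pool.Agent.V11237.SXT.IsLoop m f ∧
        Pool.Agent.V11237.SXT.Follows U₁ U₂ b ρ L m f}.ncard : ℝ) *
          (1 / Pool.Agent.V11237.SXT.mu) ^ m =
        (number m (Follows U₁ U₂ b ρ L m) : ℝ) / μ ^ m := by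
      intro m
      rw [← hmu, one_div, inv_pow, ← div_eq_mul_inv]
      rfl
    simp only [e2]
    refine Finset.sum_le_sum_of_subset_of_nonneg ?_ ?_
    · intro m hm
      obtain ⟨-, -, h3⟩ := hS m hm
      rw [Finset.mem_range, Nat.lt_succ_iff]
      apply Nat.le_floor
      refine h3.trans ?_
      gcongr
      exact le_max_left _ _
    · intro m _ _
      positivity
  · obtain ⟨m, -, h3, h4, h5⟩ := h2 L hL2
    refine ⟨m, ?_, ?_, ?_⟩
    · rw [div_le_iff₀ hK0]
      refine h3.trans ?_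
      rw [mul_comm]
      gcongr
      exact le_max_right _ _
    · refine h4.trans ?_
      gcongr
      exact le_max_right _ _
    · have e1 : Real.exp (-(max K1 K2 * Real.log m ^ 2)) ≤ Real.exp (-(K2 * Real.log m ^ 2)) := by
        apply Real.exp_le_exp.2
        have : 0 ≤ Real.log (m : ℝ) ^ 2 := by positivity
        nlinarith [le_max_right K1 K2]
      refine e1.trans (h5.trans (le_of_eq ?_))
      unfold Pool.Agent.V11237.SXT.lprob prob number
      simp only [and_true]
      rfl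

end Pool.Agent.Results.MP_376faf_co.PolygonsOfEveryShape
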