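import Pool.Agent.V11252.SAW.PolyGen

/-!
# The generating function of the wide self-avoiding polygons, uniformly up to the critical point

Let `p_{2n} (k)` be the number of self-avoiding polygons of perimeter `2 n` and width at least `k` on the
square lattice, up to translation, `1 / μ` the critical point and `ξ (z)` the correlation length of the
self-avoiding walk (the inverse of the decay rate of its two-point function along the axis).  Then
`∑_{n ≥ 2} p_{2n} (k) z^(2n) = exp (- 2 k / ξ (z) + O (Λ^2))`, `Λ = log (2 + k + 1 / (1/μ - z))`,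
with one constant for all `k ≥ 1` and all `z` in `[z₀, 1/μ)`: below the critical point the wide polygons
are exponentially rare at exactly twice the rate of the two-point function of the walk, at all scales
and uniformly up to the critical point.

The proof uses the large deviations of the width at fixed perimeter and the bounds for `p_{2n}` (the
starting libraries `Pool.Agent.Y981.L2.PolyE`, `Pool.Agent.TH508.LT`), Legendre duality between the rate
function and the inverse correlation length, and a contraction argument for the sum over `n`.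
-/

set_option autoImplicit false

namespace Pool.Agent.Results.MP_376faf_co.WidePolygonSeries

open Filter Topology
open Pool.Agent

/-- a closed nearest-neighbour loop on `ℤ²` with `m` steps, rooted at the origin and oriented,
that visits no vertex twice -/
def IsLoop (m : ℕ) (f : ZMod m → ℤ × ℤ) : Prop :=
  f 0 = 0 ∧ Function.Injective f ∧
    ∀ i : ZMod m, |(f (i + 1)).1 - (f i).1| + |(f (i + 1)).2 - (f i).2| = 1

/-- the width (horizontal extent) of a loop -/
noncomputable def width (m : ℕ) (f : ZMod m → ℤ × ℤ) : ℕ :=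
  sSup {w : ℕ | ∃ i j, w = ((f i).1 - (f j).1).natAbs}

/-- `p_{2n}`: the number of self-avoiding polygons of perimeter `2 n` up to translation: the number
of rooted oriented loops divided by `4 n`, the number of choices of the root and the orientation -/
noncomputable def p (n : ℕ) : ℝ :=
  ({f : ZMod (2 * n) → ℤ × ℤ | IsLoop (2 * n) f}.ncard : ℝ) / (4 * n)

/-- `p_{2n}(k)`: the number of those with width at least `k` -/
noncomputable def pw (n k : ℕ) : ℝ :=
  ({f : ZMod (2 * n) → ℤ × ℤ | IsLoop (2 * n) f ∧ k ≤ width (2 * n) f}.ncard : ℝ) / (4 * n)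

/-- `ω` is an `n`-step self-avoiding walk on `ℤ²` started at the origin. -/
def IsSAW (n : ℕ) (ω : Fin (n + 1) → ℤ × ℤ) : Prop :=
  ω 0 = (0, 0) ∧
  (∀ i : Fin n, |(ω i.succ).1 - (ω i.castSucc).1| + |(ω i.succ).2 - (ω i.castSucc).2| = 1) ∧
  Function.Injective ω

/-- `c_n`: the number of `n`-step self-avoiding walks from the origin -/
noncomputable def c (n : ℕ) : ℕ := Nat.card {ω : Fin (n + 1) → ℤ × ℤ // IsSAW n ω}

/-- `c_n(x)`: the number of `n`-step self-avoiding walks from the origin to `x` -/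
noncomputable def cx (n : ℕ) (x : ℤ × ℤ) : ℕ :=
  Nat.card {ω : Fin (n + 1) → ℤ × ℤ // IsSAW n ω ∧ ω (Fin.last n) = x}

/-- the two-point function `G_z(x) = ∑_n c_n(x) z^n` -/
noncomputable def G (z : ℝ) (x : ℤ × ℤ) : ℝ := ∑' n : ℕ, (cx n x : ℝ) * z ^ n

theorem c_eq (n : ℕ) : c n = TH795.EP.c n := TH795.EP2.card_walks n

theorem cx_eq (n : ℕ) (x : ℤ × ℤ) : cx n x = TH795.EP.a n x.1 x.2 := TH795.EP2.card_walks_to n x

theorem G_eq (z : ℝ) (x y : ℤ) : G z (x, y) = Y981.L2.Gz z x y := by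
  unfold G Y981.L2.Gz
  apply tsum_congr
  intro n
  rw [cx_eq]

theorem p_eq (n : ℕ) : p n = H981.PP n := rfl

theorem pw_eq {n : ℕ} (hn : 2 ≤ n) (k : ℕ) : pw n k = V11252.SAW.pk n k := by
  have hn0 : (0 : ℝ) < n := by exact_mod_cast (by omega : 0 < n)
  have h1 := V11252.SAW.Lps_pos hn
  unfold V11252.SAW.pk Y981.L2.pw
  rw [← p_eq]
  have e1 : {f : ZMod (2 * n) → ℤ × ℤ | IsLoop (2 * n) f ∧ k ≤ width (2 * n) f} =
      {f : ZMod (2 * n) → ℤ × ℤ | H981.IsLoop (2 * n) f ∧
        (k : ℝ) ≤ (Y981.L2.width (2 * n) f : ℝ)} := by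
    ext f
    simp only [Set.mem_ofPred_eq]
    constructor
    · rintro ⟨h2, h3⟩
      exact ⟨h2, by exact_mod_cast h3⟩
    · rintro ⟨h2, h3⟩
      exact ⟨h2, by exact_mod_cast h3⟩
  have e2 : p n = ((V11252.SAW.Lps n).ncard : ℝ) / (4 * n) := rfl
  have e3 : (({f : ZMod (2 * n) → ℤ × ℤ | H981.IsLoop (2 * n) f}.ncard : ℕ) : ℝ) =
      ((V11252.SAW.Lps n).ncard : ℝ) := rfl
  unfold pw
  rw [e1, e2, e3]
  field_simp

/-- **Main result.** Let `μ = lim c_n^(1/n)`.  For `0 < z < 1/μ` the correlation length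
`ξ(z) = (lim_j - (1/j) log G_z((j, 0)))^(-1)` of the self-avoiding walk exists and is positive and
finite, and for every `k ≥ 1` the series `∑_{n ≥ 2} p_{2n}(k) z^(2n)` of the polygons with width at least
`k` converges to a positive number.  For every `z₀ > 0` there is `K` such that for **all**
`z ∈ [z₀, 1/μ)` and **all** `k ≥ 1`
`|log ∑_{n ≥ 2} p_{2n}(k) z^(2n) + 2 k / ξ(z)| ≤ K (log (2 + k + 1 / (1/μ - z)))^2`. -/
theorem result : ∃ (μ : ℝ) (ξ : ℝ → ℝ), 0 < μ ∧
    Tendsto (fun n : ℕ => (c n : ℝ) ^ (1 / (n : ℝ))) atTop (𝓝 μ) ∧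
    (∀ z : ℝ, 0 < z → z < 1 / μ → 0 < ξ z ∧
      Tendsto (fun j : ℕ => - Real.log (G z ((j : ℤ), 0)) / j) atTop (𝓝 (1 / ξ z)) ∧
      ∀ k : ℕ, 1 ≤ k → Summable (fun n : ℕ => pw (n + 2) k * z ^ (2 * (n + 2))) ∧
        0 < ∑' n : ℕ, pw (n + 2) k * z ^ (2 * (n + 2))) ∧
    ∀ z₀ : ℝ, 0 < z₀ → ∃ K : ℝ, ∀ z : ℝ, z₀ ≤ z → z < 1 / μ → ∀ k : ℕ, 1 ≤ k →
      |Real.log (∑' n : ℕ, pw (n + 2) k * z ^ (2 * (n + 2))) + 2 * k / ξ z| ≤
        K * Real.log (2 + k + 1 / (1 / μ - z)) ^ 2 := by
  have hmu := H981.mu_pos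
  have hGP : ∀ (z : ℝ) (k : ℕ), ∑' n : ℕ, pw (n + 2) k * z ^ (2 * (n + 2)) =
      V11252.SAW.GP z k := by
    intro z k
    unfold V11252.SAW.GP
    apply tsum_congr
    intro n
    rw [pw_eq (by omega)]
  have hpos : ∀ z : ℝ, 0 < z → z < 1 / H981.mu → 0 < -Real.log (z * H981.mu) := by
    intro z hz hz1
    have h1 : z * H981.mu < 1 := by rwa [lt_div_iff₀ hmu] at hz1
    have h2 := Real.log_neg (mul_pos hz hmu) h1
    linarith
  have hlz : ∀ z : ℝ, 0 < z → Real.log z + Real.log H981.mu = -(-Real.log (z * H981.mu)) := by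
    intro z hz
    rw [Real.log_mul hz.ne' hmu.ne', neg_neg]
  refine ⟨H981.mu, Y981.L2.xi, hmu, ?_, ?_, ?_⟩
  · have h := H981.tendsto_root
    refine h.congr ?_
    intro n
    rw [c_eq, TH795.EP.c_eq]
  · intro z hz hz1
    have he := hpos z hz hz1
    have hm := Y981.L2.mass_pos he
    refine ⟨?_, ?_, ?_⟩
    · unfold Y981.L2.xi
      positivity
    · have h := Y981.L2.G_tendsto hz hz1
      unfold Y981.L2.xi
      rw [one_div_one_div]
      refine h.congr ?_
      intro k
      rw [G_eq]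
    · intro k hk
      obtain ⟨K, hK, h⟩ := V11252.SAW.GP_upper _ he
      obtain ⟨K', hK', h'⟩ := V11252.SAW.GP_lower _ he
      obtain ⟨h1, -⟩ := h _ z he le_rfl hz (hlz z hz) k hk
      have h2 := h' _ z he le_rfl hz (hlz z hz) k hk
      constructor
      · refine h1.congr ?_
        intro n
        rw [pw_eq (by omega)]
      · rw [hGP]
        exact lt_of_lt_of_le (Real.exp_pos _) h2
  · intro z₀ hz₀
    obtain ⟨E, hE⟩ : ∃ E, E = max 1 (-Real.log (z₀ * H981.mu)) := ⟨_, rfl⟩
    have hE0 : 0 < E := by rw [hE]; exact lt_of_lt_of_le one_pos (le_max_left _ _)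
    obtain ⟨K1, hK1, h1⟩ := V11252.SAW.GP_upper E hE0
    obtain ⟨K2, hK2, h2⟩ := V11252.SAW.GP_lower E hE0
    refine ⟨K1 + K2, ?_⟩
    intro z hz0 hz1 k hk
    have hz : 0 < z := lt_of_lt_of_le hz₀ hz0
    have he0 := hpos z hz hz1
    have hlz' := hlz z hz
    have hxi : Y981.L2.xi z = 1 / Y981.L2.mass (-Real.log (z * H981.mu)) := rfl
    obtain ⟨e, he⟩ : ∃ e, e = -Real.log (z * H981.mu) := ⟨_, rfl⟩
    rw [← he] at he0 hlz' hxi
    have heE : e ≤ E := by
      rw [hE]
      refine le_trans ?_ (le_max_right _ _)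
      rw [he]
      have h3 : z₀ * H981.mu ≤ z * H981.mu := mul_le_mul_of_nonneg_right hz0 hmu.le
      have := Real.log_le_log (by positivity) h3
      linarith
    have h3 := (h1 e z he0 heE hz hlz' k hk).2
    have h4 := h2 e z he0 heE hz hlz' k hk
    have hte : 1 / H981.mu - z ≤ e := by rw [he]; exact Y981.L2.t_le_e hz hz1
    have ht0 : 0 < 1 / H981.mu - z := by linarith
    have hLg1 := V11252.SAW.one_le_Lk hk he0
    have hLg : V11252.SAW.Lk k e ≤ Real.log (2 + k + 1 / (1 / H981.mu - z)) := by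
      unfold V11252.SAW.Lk
      apply Real.log_le_log (by positivity)
      have := one_div_le_one_div_of_le ht0 hte
      linarith
    have hLg2 : V11252.SAW.Lk k e ^ 2 ≤ Real.log (2 + k + 1 / (1 / H981.mu - z)) ^ 2 :=
      pow_le_pow_left₀ (by linarith) hLg 2
    have u1 := mul_le_mul_of_nonneg_left hLg2 hK1
    have u2 := mul_le_mul_of_nonneg_left hLg2 hK2
    have p1 : 0 ≤ K1 * V11252.SAW.Lk k e ^ 2 := by positivity
    have p2 : 0 ≤ K2 * V11252.SAW.Lk k e ^ 2 := by positivity
    have hGpos : 0 < V11252.SAW.GP z k := lt_of_lt_of_le (Real.exp_pos _) h4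
    rw [← Real.log_le_iff_le_exp hGpos] at h3
    rw [← Real.le_log_iff_exp_le hGpos] at h4
    have e1 : 2 * (k : ℝ) / Y981.L2.xi z = 2 * k * Y981.L2.mass e := by
      rw [hxi, div_div_eq_mul_div, div_one]
    rw [hGP, e1, abs_le, add_mul]
    constructor
    · linarith
    · linarith

end Pool.Agent.Results.MP_376faf_co.WidePolygonSeries
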